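import Pool.Agent.H95.NV.Targets3

/-!
# Board nva_modules, module FAM: sums over the fields and sums over the discriminants
-/

set_option autoImplicit false

open MeasureTheory Set Filter NumberField
open scoped Real nonZeroDivisors

namespace Pool.Agent.H39.NV

open Pool.Agent.H95.NV
open Pool.Agent.H65.CM4 (Pl rv nm dk dg)
open Pool.Agent.H61.NVK (ci)
open Pool.Agent.H89.NV (Fnd CK em tp)

theorem nm_pos {k : Type} [Field k] [NumberField k] {f : Ideal (𝓞 k)} (hf : f ≠ ⊥) :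
    0 < nm f := by
  unfold nm
  have h : Ideal.absNorm f ≠ 0 := fun h => hf (Ideal.absNorm_eq_zero_iff.1 h)
  exact_mod_cast Nat.pos_of_ne_zero h

theorem disc_eq (hDSC : T_DSC) (k K : Type) [Field k] [NumberField k] [IsTotallyReal k] [Field K]
    [NumberField K] [Algebra k K] [Algebra.IsQuadraticExtension k K] (f : Ideal (𝓞 k))
    (D b : 𝓞 k) (δ : K) (h : KD f D b δ) : |(discr K : ℝ)| = dsz k f D := by
  have h1 := hDSC k K f D b δ h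
  have h2 := nm_pos h.f_ne
  unfold dsz
  rw [eq_div_iff (by positivity), h1]

theorem em_mul {k : Type} [Field k] [NumberField k] [IsTotallyReal k] (x D : 𝓞 k) :
    em (x * D) = fun v => em x v * em D v := by
  funext v
  unfold Pool.Agent.H89.NV.em
  have h : ((x * D : 𝓞 k) : k) = (x : k) * (D : k) := map_mul _ _ _
  rw [h, map_mul]

theorem ne_zero_of_TP {k : Type} [Field k] [NumberField k] [IsTotallyReal k] {D : 𝓞 k}
    (h : TP D) : D ≠ 0 := by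
  rintro rfl
  obtain ⟨v⟩ : Nonempty (Pl k) := inferInstance
  have h1 := h v
  have h2 : ((0 : 𝓞 k) : k) = 0 := map_zero _
  rw [h2, map_zero] at h1
  exact lt_irrefl _ h1

/-- the fields of the discriminants -/
theorem exists_field (hEXK : T_EXK) (hTCX : T_TCX) (hREP : T_REP) (hKDU : T_KDU) (hKDT : T_KDT)
    (hFUN : T_FUN) (hBRA : T_BRA) (hDSC : T_DSC) (k : Type) [Field k] [NumberField k]
    [IsTotallyReal k] (X : ℝ) (ι : Type) (K : ι → Type) [∀ i, Field (K i)]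
    [∀ i, NumberField (K i)] [∀ i, Algebra k (K i)] (hCL : CL k X ι K)
    (c : ι → ClassGroup (𝓞 k)) (D b : ι → 𝓞 k) (δ : ∀ i, K i)
    (hKD : ∀ i, KD (ci (c i)) (D i) (b i) (δ i)) (c' : ClassGroup (𝓞 k)) (D' : 𝓞 k)
    (htp : tp D') (hF : Fnd (ci c') D') (hX : dsz k (ci c') D' ≤ X) (hne : ci c' ≠ ⊥) :
    ∃ i, c i = c' ∧ ∃ u : (𝓞 k)ˣ, D' = (u : 𝓞 k) ^ 2 * D i := by
  have hTP : TP D' := htp
  obtain ⟨L, iF, iN, iA, iQ, δ', hδ'⟩ := hEXK k D' hTP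
  have hFun : Fun (ci c') D' := ((hBRA k).2.2.2.2 (ci c') D' hne).1 hF
  obtain ⟨b', hKD'⟩ := hFUN k L (ci c') D' δ' hTP hδ' hFun
  have iC : IsTotallyComplex L := hTCX k L D' δ' hTP hδ'
  have hd : |(discr L : ℝ)| ≤ X := by
    rw [disc_eq hDSC k L (ci c') D' b' δ' hKD']
    exact hX
  obtain ⟨i, ⟨e⟩⟩ := hCL.all L hd
  have iQi := hCL.quad i
  have hKD2 : KD (ci c') D' b' (e δ') := by
    obtain ⟨h1, -⟩ := hKDT k L (K i) (ci c') D' b' b' δ' hKD'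
    exact h1 e
  obtain ⟨h1, h2⟩ := hKDU k (K i) (ci (c i)) (ci c') (D i) D' (b i) b' (δ i) (e δ') (hKD i) hKD2
  have hcc : c i = c' := (hREP k).2.1 _ _ h1
  refine ⟨i, hcc, ?_⟩
  obtain ⟨u, -, hu⟩ := h2 (by rw [hcc])
  exact ⟨u, hu⟩

theorem pf_FAM (hEXK : T_EXK) (hTCX : T_TCX) (hREP : T_REP) (hKDX : T_KDX) (hKDU : T_KDU)
    (hKDM : T_KDM) (hKDT : T_KDT) (hKDF : T_KDF) (hFUN : T_FUN) (hBRA : T_BRA) (hBRK : T_BRK)
    (hDSC : T_DSC) : T_FAM := by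
  classical
  intro k _ _ _ Ψ hΨ X ι _ K _ _ _ hCL q pf pr hq hpr
  obtain ⟨⟨R, hR, hR2⟩, hRc, -⟩ := hREP k
  -- the data of the fields
  have hdata : ∀ i, ∃ (c : ClassGroup (𝓞 k)) (D b : 𝓞 k) (δ : K i), KD (ci c) D b δ := by
    intro i
    have iQ := hCL.quad i
    have iC := hCL.cm i
    obtain ⟨f, hf, D, b, δ, h⟩ := hKDX k (K i) R hR
    obtain ⟨c, rfl⟩ := (hR2 f).1 hf
    exact ⟨c, D, b, δ, h⟩
  choose c D b δ hKD using hdata
  have hcine : ∀ c' : ClassGroup (𝓞 k), ci c' ≠ ⊥ := fun c' =>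
    hR.1 _ ((hR2 _).2 ⟨c', rfl⟩)
  -- the properties of the multiples by squares of units
  have hmult : ∀ (i : ι) (ε : (𝓞 k)ˣ),
      KD (ci (c i)) ((ε : 𝓞 k) ^ 2 * D i) ((ε : 𝓞 k) * b i)
        (algebraMap k (K i) ((ε : 𝓞 k) : k) * δ i) := by
    intro i ε
    have iQ := hCL.quad i
    exact (hKDM k (K i) (ci (c i)) (D i) (b i) (δ i) ε (hKD i)).1
  have hterm : ∀ (i : ι) (ε : (𝓞 k)ˣ),
      mul k Ψ (c i, (ε : 𝓞 k) ^ 2 * D i) * q (dsz k (ci (c i)) ((ε : 𝓞 k) ^ 2 * D i)) *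
        pf ((ε : 𝓞 k) ^ 2 * D i) =
      Ψ (fun v => em ((ε : 𝓞 k) ^ 2) v * em (D i) v) * (q |(discr (K i) : ℝ)| * pr i) := by
    intro i ε
    have iQ := hCL.quad i
    have h := hmult i ε
    have htp : tp ((ε : 𝓞 k) ^ 2 * D i) := h.pos
    have hFnd : Fnd (ci (c i)) ((ε : 𝓞 k) ^ 2 * D i) :=
      ((hBRA k).2.2.2.2 _ _ (hcine _)).2 (hKDF k (K i) _ _ _ _ h)
    have h1 : mul k Ψ (c i, (ε : 𝓞 k) ^ 2 * D i) =
        Ψ (fun v => em ((ε : 𝓞 k) ^ 2) v * em (D i) v) := by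
      unfold mul
      rw [if_pos ⟨htp, hFnd⟩, em_mul]
    have h2 : dsz k (ci (c i)) ((ε : 𝓞 k) ^ 2 * D i) = |(discr (K i) : ℝ)| :=
      (disc_eq hDSC k (K i) _ _ _ _ h).symm
    obtain ⟨hck, -⟩ := (hBRK k (K i) ((ε : 𝓞 k) ^ 2 * D i)).2 htp iQ _ h.sq
    have h3 : pr i = pf ((ε : 𝓞 k) ^ 2 * D i) := hpr i _ hck
    rw [h1, h2, h3]
    ring
  -- the units of the partition of unity
  have hPU : ∀ i, ∃ s : Finset (𝓞 k), (∀ x : 𝓞 k, x ∈ s ↔ (∃ ε : (𝓞 k)ˣ, x = (ε : 𝓞 k) ^ 2) ∧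
      Ψ (fun v => em x v * em (D i) v) ≠ 0) ∧
      ∑ x ∈ s, Ψ (fun v => em x v * em (D i) v) = 1 := by
    intro i
    exact hΨ.sum (em (D i)) (fun v => (hKD i).pos v)
  choose s hs1 hs2 using hPU
  -- the support
  let g : (Σ _ : ι, 𝓞 k) → ClassGroup (𝓞 k) × 𝓞 k := fun z => (c z.1, z.2 * D z.1)
  let T : Finset (Σ _ : ι, 𝓞 k) := Finset.univ.sigma (fun i => s i)
  have hginj : Set.InjOn g (T : Set (Σ _ : ι, 𝓞 k)) := by
    rintro ⟨i, x⟩ hz ⟨j, y⟩ hz' hg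
    have hx : x ∈ s i := (Finset.mem_sigma.1 hz).2
    have hy : y ∈ s j := (Finset.mem_sigma.1 hz').2
    obtain ⟨⟨ε, rfl⟩, -⟩ := (hs1 i x).1 hx
    obtain ⟨⟨η, rfl⟩, -⟩ := (hs1 j y).1 hy
    have hg1 : c i = c j := congrArg Prod.fst hg
    have hg2 : (ε : 𝓞 k) ^ 2 * D i = (η : 𝓞 k) ^ 2 * D j := congrArg Prod.snd hg
    have iQ := hCL.quad i
    have iQ' := hCL.quad j
    have h1 := hmult i ε
    have h2 := hmult j η
    rw [← hg1, ← hg2] at h2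
    have hij : i = j := hCL.inj i j ((hKDT k (K i) (K j) _ _ _ _ _ h1).2 _ h2)
    subst hij
    have hD : D i ≠ 0 := ne_zero_of_TP (hKD i).pos
    have hxy : (ε : 𝓞 k) ^ 2 = (η : 𝓞 k) ^ 2 := mul_right_cancel₀ hD hg2
    rw [hxy]
  have hsupp : ∀ y : ClassGroup (𝓞 k) × 𝓞 k, y ∉ T.image g →
      mul k Ψ y * q (dsz k (ci y.1) y.2) * pf y.2 = 0 := by
    intro y hy
    by_contra hne
    apply hy
    have hm : mul k Ψ y ≠ 0 := by
      intro h0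
      apply hne
      rw [h0]
      ring
    have hq0 : q (dsz k (ci y.1) y.2) ≠ 0 := by
      intro h0
      apply hne
      rw [h0]
      ring
    have hX : dsz k (ci y.1) y.2 ≤ X := by
      by_contra hcon
      exact hq0 (hq _ (not_le.1 hcon))
    unfold mul at hm
    have htF : tp y.2 ∧ Fnd (ci y.1) y.2 := by
      by_contra hcon
      rw [if_neg hcon] at hm
      exact hm rfl
    rw [if_pos htF] at hm
    obtain ⟨i, hi, u, hu⟩ := exists_field hEXK hTCX hREP hKDU hKDT hFUN hBRA hDSC k X ι K hCL c D b δ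
      hKD y.1 y.2 htF.1 htF.2 hX (hcine _)
    refine Finset.mem_image.2 ⟨⟨i, (u : 𝓞 k) ^ 2⟩, ?_, ?_⟩
    · refine Finset.mem_sigma.2 ⟨Finset.mem_univ _, (hs1 i _).2 ⟨⟨u, rfl⟩, ?_⟩⟩
      rw [← em_mul, ← hu]
      exact hm
    · show (c i, (u : 𝓞 k) ^ 2 * D i) = y
      rw [hi, ← hu]
  rw [tsum_eq_sum hsupp, Finset.sum_image hginj, Finset.sum_sigma]
  refine Finset.sum_congr rfl (fun i _ => ?_)
  have h1 : ∀ x ∈ s i, mul k Ψ (g ⟨i, x⟩) * q (dsz k (ci (g ⟨i, x⟩).1) (g ⟨i, x⟩).2) *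
      pf (g ⟨i, x⟩).2 =
      Ψ (fun v => em x v * em (D i) v) * (q |(discr (K i) : ℝ)| * pr i) := by
    intro x hx
    obtain ⟨⟨ε, rfl⟩, -⟩ := (hs1 i x).1 hx
    exact hterm i ε
  rw [Finset.sum_congr rfl h1, ← Finset.sum_mul, hs2 i, one_mul]

end Pool.Agent.H39.NV
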